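import Pool.Agent.J6H55.MA.Stm

/-!
# The metric part (MA-MET)

The statement `S_met`: a closed shift invariant set of sequences with the symbolic form of the asymptotic average
shadowing property gives a metric system with this property.
-/

set_option autoImplicit false

open Filter Topology

namespace Pool.Agent.J6H47.MA

open Pool.Agent.J6H55.MA

/-- the averages tend to zero -/
def Av (u : ℕ → ℝ) : Prop :=
  Tendsto (fun N : ℕ => (∑ i ∈ Finset.range N, u i) / N) atTop (𝓝 0)

theorem Av.mono {u v : ℕ → ℝ} (h0 : ∀ i, 0 ≤ u i) (h : ∀ i, u i ≤ v i) (hv : Av v) : Av u := by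
  refine squeeze_zero
    (fun N => div_nonneg (Finset.sum_nonneg fun i _ => h0 i) (Nat.cast_nonneg N)) (fun N => ?_) hv
  exact div_le_div_of_nonneg_right (Finset.sum_le_sum fun i _ => h i) (Nat.cast_nonneg N)

theorem Av.add {u v : ℕ → ℝ} (hu : Av u) (hv : Av v) : Av (fun i => u i + v i) := by
  have h := Tendsto.add hu hv
  simp only [add_zero] at h
  refine h.congr fun N => ?_
  rw [Finset.sum_add_distrib, add_div]

theorem Av.smul (c : ℝ) {u : ℕ → ℝ} (hu : Av u) : Av (fun i => c * u i) := by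
  have h := Tendsto.const_mul c hu
  simp only [mul_zero] at h
  refine h.congr fun N => ?_
  rw [← Finset.mul_sum, mul_div_assoc]

theorem Av.zero : Av (fun _ => 0) := by simp [Av]

theorem Av.sum {u : ℕ → ℕ → ℝ} (k : ℕ) (hu : ∀ s, Av (u s)) :
    Av (fun i => ∑ s ∈ Finset.range k, u s i) := by
  induction k with
  | zero => simpa using Av.zero
  | succ k ih =>
    simp only [Finset.sum_range_succ]
    exact ih.add (hu k)

theorem Av.shift {u : ℕ → ℝ} (h0 : ∀ i, 0 ≤ u i) (hu : Av u) (s : ℕ) :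
    Av (fun i => u (i + s)) := by
  have h1 : Tendsto (fun N : ℕ => 2 * ((∑ i ∈ Finset.range (N + s), u i) / ((N + s : ℕ) : ℝ)))
      atTop (𝓝 0) := by
    have h := (Tendsto.comp hu (tendsto_add_atTop_nat s)).const_mul 2
    simpa [Function.comp_def] using h
  refine squeeze_zero' (Eventually.of_forall fun N =>
    div_nonneg (Finset.sum_nonneg fun i _ => h0 _) (Nat.cast_nonneg N)) ?_ h1
  filter_upwards [eventually_ge_atTop (s + 1)] with N hN
  have hN1 : (0 : ℝ) < N := by exact_mod_cast (by omega : 0 < N)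
  have hs : (s : ℝ) ≤ N := by exact_mod_cast (by omega : s ≤ N)
  have hsum : ∑ i ∈ Finset.range N, u (i + s) ≤ ∑ i ∈ Finset.range (N + s), u i := by
    rw [add_comm N s, Finset.sum_range_add]
    have : ∑ i ∈ Finset.range N, u (i + s) = ∑ i ∈ Finset.range N, u (s + i) :=
      Finset.sum_congr rfl fun i _ => by rw [add_comm]
    rw [this]
    have := Finset.sum_nonneg (s := Finset.range s) (f := u) fun i _ => h0 i
    linarith
  have hS : 0 ≤ ∑ i ∈ Finset.range (N + s), u i := Finset.sum_nonneg fun i _ => h0 i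
  push_cast
  rw [← mul_div_assoc, div_le_div_iff₀ hN1 (by positivity)]
  nlinarith

theorem Av.of_eps {u : ℕ → ℝ} (h0 : ∀ i, 0 ≤ u i)
    (h : ∀ n : ℕ, ∃ v : ℕ → ℝ, Av v ∧ ∀ i, u i ≤ (1 / 2) ^ n + v i) : Av u := by
  rw [Av, Metric.tendsto_atTop]
  intro ε hε
  obtain ⟨n, hn⟩ := exists_pow_lt_of_lt_one (half_pos hε) (by norm_num : (1 / 2 : ℝ) < 1)
  obtain ⟨v, hv, huv⟩ := h n
  rw [Av, Metric.tendsto_atTop] at hv
  obtain ⟨N0, hN0⟩ := hv (ε / 2) (half_pos hε)
  refine ⟨max N0 1, fun N hN => ?_⟩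
  have hN1 : (0 : ℝ) < N := by exact_mod_cast (by omega : 0 < N)
  have h1 := hN0 N (le_trans (le_max_left _ _) hN)
  rw [Real.dist_eq, sub_zero] at h1 ⊢
  rw [abs_of_nonneg (div_nonneg (Finset.sum_nonneg fun i _ => h0 i) (Nat.cast_nonneg N))]
  have h2 : (∑ i ∈ Finset.range N, u i) / N ≤ (1 / 2) ^ n + (∑ i ∈ Finset.range N, v i) / N := by
    rw [div_le_iff₀ hN1, add_mul, div_mul_cancel₀ _ hN1.ne']
    calc ∑ i ∈ Finset.range N, u i ≤ ∑ i ∈ Finset.range N, ((1 / 2) ^ n + v i) :=
          Finset.sum_le_sum fun i _ => huv i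
      _ = (1 / 2) ^ n * N + ∑ i ∈ Finset.range N, v i := by
          rw [Finset.sum_add_distrib, Finset.sum_const, Finset.card_range, nsmul_eq_mul, mul_comm]
  have h3 := le_abs_self ((∑ i ∈ Finset.range N, v i) / (N : ℝ))
  linarith

/-- the indicator function of a predicate -/
noncomputable def ind (p : Prop) : ℝ := by
  classical
  exact if p then 1 else 0

theorem ind_nonneg (p : Prop) : 0 ≤ ind p := by
  unfold ind
  split_ifs <;> norm_num

theorem ind_pos {p : Prop} (h : p) : ind p = 1 := by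
  unfold ind
  rw [if_pos h]

theorem ind_neg {p : Prop} (h : ¬ p) : ind p = 0 := by
  unfold ind
  rw [if_neg h]

theorem sum_ind (p : ℕ → Prop) (N : ℕ) :
    ∑ i ∈ Finset.range N, ind (p i) = ({i | i < N ∧ p i}.ncard : ℝ) := by
  classical
  have h : {i | i < N ∧ p i} = (((Finset.range N).filter p : Finset ℕ) : Set ℕ) := by
    ext i
    simp
  rw [h, Set.ncard_coe_finset]
  unfold ind
  rw [Finset.sum_ite, Finset.sum_const_zero, add_zero, Finset.sum_const, nsmul_eq_mul, mul_one]

theorem sum_ind_mis (x y : ℕ → Bool) (N : ℕ) :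
    ∑ i ∈ Finset.range N, ind (x i ≠ y i) = (mis x y N : ℝ) := by
  rw [sum_ind, mis]
  have h : {i | i < N ∧ x i ≠ y i} = (((Finset.range N).filter fun i => x i ≠ y i : Finset ℕ) : Set ℕ) := by
    ext i
    simp
  rw [h, Set.ncard_coe_finset]

theorem win_eq_iff {x y : ℕ → Bool} {i j n : ℕ} :
    win x i n = win y j n ↔ ∀ t < n, x (i + t) = y (j + t) := by
  unfold win
  constructor
  · intro h t ht
    have := List.map_eq_map_iff.1 h t (List.mem_range.2 ht)
    exact this
  · intro h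
    exact List.map_eq_map_iff.2 fun t ht => h t (List.mem_range.1 ht)

/-- a metric system with a coding by sequences -/
structure Sys {Y : Type} [MetricSpace Y] (c : Y → ℕ → Bool) (f : Y → Y) : Prop where
  d : ∀ x y (n : ℕ), dist x y ≤ (1 / 2 : ℝ) ^ n ↔ ∀ i < n, c x i = c y i
  s : ∀ x i, c (f x) i = c x (i + 1)

section

variable {Y : Type} [MetricSpace Y] {c : Y → ℕ → Bool} {f : Y → Y} (hS : Sys c f)
include hS

theorem Sys.iter (x : Y) (k i : ℕ) : c (f^[k] x) i = c x (i + k) := by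
  induction k generalizing i with
  | zero => rfl
  | succ k ih =>
    rw [Function.iterate_succ_apply', hS.s, ih]
    congr 1
    omega

theorem Sys.cont : Continuous f := by
  rw [Metric.continuous_iff]
  intro b ε hε
  obtain ⟨n, hn⟩ := exists_pow_lt_of_lt_one hε (by norm_num : (1 / 2 : ℝ) < 1)
  refine ⟨(1 / 2) ^ (n + 1), by positivity, fun a ha => ?_⟩
  have h1 := (hS.d a b (n + 1)).1 ha.le
  refine lt_of_le_of_lt ((hS.d (f a) (f b) n).2 fun i hi => ?_) hn
  rw [hS.s, hS.s]
  exact h1 (i + 1) (by omega)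

theorem Sys.code {x : ℕ → Y} {i n : ℕ}
    (h : ∀ s < n, dist (f (x (i + s))) (x (i + s + 1)) ≤ (1 / 2 : ℝ) ^ n) :
    ∀ t < n, c (x (i + t)) 0 = c (x i) t := by
  have key : ∀ s t, s + t < n → c (x (i + s)) t = c (x i) (s + t) := by
    intro s
    induction s with
    | zero =>
      intro t _
      simp
    | succ s ih =>
      intro t ht
      have h1 := (hS.d _ _ n).1 (h s (by omega)) t (by omega)
      rw [hS.s] at h1
      have h2 := ih (t + 1) (by omega)
      rw [show i + (s + 1) = i + s + 1 by omega, ← h1, h2]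
      congr 1
      omega
  intro t ht
  exact key t 0 (by omega)

theorem Sys.aasp (hx : ∀ a : ℕ → Bool, (∀ n, Tendsto (fun N : ℕ =>
      ({i | i < N ∧ ¬ ∃ x : Y, win a i n = win (c x) 0 n}.ncard : ℝ) / N) atTop (𝓝 0)) →
    ∃ y : Y, Tendsto (fun N : ℕ => (mis a (c y) N : ℝ) / N) atTop (𝓝 0)) : AASP f := by
  intro x hx0
  have hE : Av (fun i => dist (f (x i)) (x (i + 1))) := hx0
  -- the bad indices
  have hbad : ∀ n : ℕ, Av (fun i =>
      ind (∃ s < n, (1 / 2 : ℝ) ^ n < dist (f (x (i + s))) (x (i + s + 1)))) := by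
    intro n
    have h1 : Av (fun i => 2 ^ n * ∑ s ∈ Finset.range n, dist (f (x (i + s))) (x (i + s + 1))) := by
      refine Av.smul _ (Av.sum n (u := fun s i => dist (f (x (i + s))) (x (i + s + 1))) fun s => ?_)
      exact Av.shift (u := fun i => dist (f (x i)) (x (i + 1))) (fun i => dist_nonneg) hE s
    refine Av.mono (fun i => ind_nonneg _) (fun i => ?_) h1
    by_cases h : ∃ s < n, (1 / 2 : ℝ) ^ n < dist (f (x (i + s))) (x (i + s + 1))
    · rw [ind_pos h]
      obtain ⟨s, hs, hd⟩ := h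
      have h2 : dist (f (x (i + s))) (x (i + s + 1)) ≤
          ∑ s ∈ Finset.range n, dist (f (x (i + s))) (x (i + s + 1)) :=
        Finset.single_le_sum (f := fun s => dist (f (x (i + s))) (x (i + s + 1)))
          (fun _ _ => dist_nonneg) (Finset.mem_range.2 hs)
      calc (1 : ℝ) = 2 ^ n * (1 / 2) ^ n := by rw [← mul_pow]; norm_num
        _ ≤ _ := mul_le_mul_of_nonneg_left (hd.le.trans h2) (by positivity)
    · rw [ind_neg h]
      exact mul_nonneg (by positivity) (Finset.sum_nonneg fun _ _ => dist_nonneg)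
  obtain ⟨y, hy⟩ := hx (fun j => c (x j) 0) (by
    intro n
    have h1 : Av (fun i => ind (¬ ∃ z : Y, win (fun j => c (x j) 0) i n = win (c z) 0 n)) := by
      refine Av.mono (fun i => ind_nonneg _) (fun i => ?_) (hbad n)
      by_cases h : ∃ s < n, (1 / 2 : ℝ) ^ n < dist (f (x (i + s))) (x (i + s + 1))
      · rw [ind_pos h]
        unfold ind
        split_ifs <;> norm_num
      · rw [ind_neg (p := ¬ ∃ z : Y, win (fun j => c (x j) 0) i n = win (c z) 0 n)]
        · exact ind_nonneg _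
        · push Not at h
          rw [not_not]
          refine ⟨x i, win_eq_iff.2 fun t ht => ?_⟩
          rw [zero_add]
          exact hS.code h t ht
    have h2 := h1
    unfold Av at h2
    simpa only [sum_ind] using h2)
  refine ⟨y, ?_⟩
  have hy' : Av (fun i => ind (c (x i) 0 ≠ c y i)) := by
    have h : (fun N : ℕ => (∑ i ∈ Finset.range N, ind (c (x i) 0 ≠ c y i)) / (N : ℝ)) =
        fun N : ℕ => (mis (fun j => c (x j) 0) (c y) N : ℝ) / N := by
      funext N
      rw [← sum_ind_mis]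
    unfold Av
    rw [h]
    exact hy
  refine Av.of_eps (u := fun i => dist (f^[i] y) (x i)) (fun _ => dist_nonneg) fun n => ?_
  refine ⟨fun i => (∑ t ∈ Finset.range n, ind (c (x (i + t)) 0 ≠ c y (i + t))) +
    ind (∃ s < n, (1 / 2 : ℝ) ^ n < dist (f (x (i + s))) (x (i + s + 1))), ?_, fun i => ?_⟩
  · refine Av.add (Av.sum n (u := fun t i => ind (c (x (i + t)) 0 ≠ c y (i + t))) fun t => ?_)
      (hbad n)
    exact Av.shift (u := fun i => ind (c (x i) 0 ≠ c y i)) (fun i => ind_nonneg _) hy' t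
  · beta_reduce
    have hone : dist (f^[i] y) (x i) ≤ 1 := by
      have := (hS.d (f^[i] y) (x i) 0).2 (fun i hi => absurd hi (Nat.not_lt_zero i))
      simpa using this
    have hs0 : 0 ≤ ∑ t ∈ Finset.range n, ind (c (x (i + t)) 0 ≠ c y (i + t)) :=
      Finset.sum_nonneg fun _ _ => ind_nonneg _
    have hp : (0 : ℝ) ≤ (1 / 2) ^ n := by positivity
    by_cases h : ∃ s < n, (1 / 2 : ℝ) ^ n < dist (f (x (i + s))) (x (i + s + 1))
    · rw [ind_pos h]
      linarith
    · rw [ind_neg h]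
      push Not at h
      have hc := hS.code h
      by_cases h2 : ∃ t < n, c (x (i + t)) 0 ≠ c y (i + t)
      · obtain ⟨t, ht, hne⟩ := h2
        have h3 : ind (c (x (i + t)) 0 ≠ c y (i + t)) ≤
            ∑ t ∈ Finset.range n, ind (c (x (i + t)) 0 ≠ c y (i + t)) :=
          Finset.single_le_sum (f := fun t => ind (c (x (i + t)) 0 ≠ c y (i + t)))
            (fun _ _ => ind_nonneg _) (Finset.mem_range.2 ht)
        rw [ind_pos hne] at h3
        linarith
      · push Not at h2
        have h4 : dist (f^[i] y) (x i) ≤ (1 / 2) ^ n := by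
          refine (hS.d _ _ n).2 fun t ht => ?_
          rw [hS.iter, ← hc t ht, h2 t ht, add_comm]
        linarith

theorem Sys.minimal (hx : ∀ x y : Y, ∀ n, ∃ i, ∀ t < n, c x (i + t) = c y t) : Minimal f := by
  intro A hA hne hmap
  obtain ⟨x, hxA⟩ := hne
  refine Set.eq_univ_of_forall fun y => ?_
  rw [← hA.closure_eq, Metric.mem_closure_iff]
  intro ε hε
  obtain ⟨n, hn⟩ := exists_pow_lt_of_lt_one hε (by norm_num : (1 / 2 : ℝ) < 1)
  obtain ⟨i, hi⟩ := hx x y n
  refine ⟨f^[i] x, hmap.iterate i hxA, ?_⟩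
  refine lt_of_le_of_lt ((hS.d y (f^[i] x) n).2 fun t ht => ?_) hn
  rw [hS.iter, ← hi t ht, add_comm]

end

/-- the metric part -/
theorem met : S_met := by
  intro X hX hsh htwo hmin hav
  letI : MetricSpace (ℕ → Bool) := PiNat.metricSpace
  have hcomp : CompactSpace X := isCompact_iff_compactSpace.1 (hX.isCompact)
  have hd : ∀ (x y : X) (n : ℕ), dist x y ≤ (1 / 2 : ℝ) ^ n ↔ ∀ i < n, x.1 i = y.1 i := by
    intro x y n
    rw [Subtype.dist_eq, ← PiNat.mem_cylinder_iff_dist_le, PiNat.mem_cylinder_iff]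
  have hS : Sys (Y := X) (fun x => x.1) (fun x => ⟨fun i => x.1 (i + 1), hsh x.1 x.2⟩) :=
    ⟨hd, fun _ _ => rfl⟩
  refine ⟨X, inferInstance, fun x => ⟨fun i => x.1 (i + 1), hsh x.1 x.2⟩, hcomp, hS.cont, ?_,
    hS.minimal ?_, hS.aasp ?_⟩
  · obtain ⟨x, hx, y, hy, hxy⟩ := htwo
    exact ⟨⟨x, hx⟩, ⟨y, hy⟩, fun h => hxy (congrArg Subtype.val h)⟩
  · intro x y n
    exact hmin x.1 x.2 y.1 y.2 n
  · intro a ha
    obtain ⟨y, hy, hlim⟩ := hav a (by
      intro n
      refine (ha n).congr fun N => ?_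
      have h : {i | i < N ∧ ¬ ∃ x : X, win a i n = win x.1 0 n} =
          {i | i < N ∧ ¬ ∃ x ∈ X, win a i n = win x 0 n} := by
        ext i
        simp
      rw [h])
    exact ⟨⟨y, hy⟩, hlim⟩

end Pool.Agent.J6H47.MA
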